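import Mathlib

/-! Taylor's formula for towers of derivatives, moments and the box principle. -/

set_option autoImplicit false

namespace Pool.Agent.MP_47b17d_nt.H84

open Finset Polynomial

theorem taylor (a W : ℝ) (n : ℕ) : ∀ (G : ℕ → ℝ → ℝ) (C : ℝ),
    (∀ l, ∀ x ∈ Set.Icc a (a + W), HasDerivAt (G l) (G (l + 1) x) x) →
    (∀ x ∈ Set.Icc a (a + W), |G n x| ≤ C) → ∀ u ∈ Set.Icc 0 W,
    |G 0 (a + u) - ∑ l ∈ range n, G l a * u ^ l / l.factorial| ≤ C * u ^ n / n.factorial := by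
  induction n with
  | zero =>
    intro G C _ h u hu
    simpa using h (a + u) ⟨by linarith [hu.1], by linarith [hu.2]⟩
  | succ n ih =>
    intro G C hG h u hu
    have hm : ∀ (k : ℕ) (D x : ℝ), HasDerivAt (fun x : ℝ => D * x ^ (k + 1) / (k + 1).factorial)
        (D * x ^ k / k.factorial) x := by
      intro k D x
      refine (((hasDerivAt_pow (k + 1) x).const_mul D).div_const
        ((k + 1).factorial : ℝ)).congr_deriv ?_
      rw [Nat.factorial_succ]
      have : (k.factorial : ℝ) ≠ 0 := by positivity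
      push_cast
      field_simp
    have hd : ∀ x ∈ Set.Icc 0 u, HasDerivAt
        (fun x : ℝ => G 0 (a + x) - ∑ l ∈ range (n + 1), G l a * x ^ l / l.factorial)
        (G 1 (a + x) - ∑ l ∈ range n, G (l + 1) a * x ^ l / l.factorial) x := by
      intro x hx
      have h1 : HasDerivAt (fun x : ℝ => G 0 (a + x)) (G 1 (a + x)) x :=
        (hG 0 (a + x) ⟨by linarith [hx.1], by linarith [hx.2, hu.2]⟩).comp_const_add a x
      refine h1.fun_sub ?_
      simp only [sum_range_succ' _ n]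
      exact ((HasDerivAt.fun_sum fun l _ => hm l (G (l + 1) a) x).add_const
        (G 0 a)).congr_of_eventuallyEq (Filter.Eventually.of_forall fun y => by simp)
    have key := image_norm_le_of_norm_deriv_right_le_deriv_boundary
      (f := fun x : ℝ => G 0 (a + x) - ∑ l ∈ range (n + 1), G l a * x ^ l / l.factorial)
      (a := 0) (b := u) (fun x hx => (hd x hx).continuousAt.continuousWithinAt)
      (fun x hx => (hd x ⟨hx.1, hx.2.le⟩).hasDerivWithinAt)
      (B := fun x : ℝ => C * x ^ (n + 1) / (n + 1).factorial)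
      (by simp [sum_range_succ' _ n]) (hm n C)
      (fun x hx => by
        rw [Real.norm_eq_abs]
        exact ih (fun l => G (l + 1)) C (fun l => hG (l + 1)) h x ⟨hx.1, hx.2.le.trans hu.2⟩)
    simpa [Real.norm_eq_abs] using key (x := u) ⟨hu.1, le_rfl⟩

theorem poly_zero {J n : ℕ} (u c : Fin J → ℤ) (h : ∀ l, l < n → ∑ i, c i * u i ^ l = 0)
    (P : ℤ[X]) (hP : P.degree < n) : ∑ i, c i * P.eval (u i) = 0 := by
  by_cases h0 : P = 0
  · simp [h0]
  have h1 : P.natDegree < n := (natDegree_lt_iff_degree_lt h0).2 hP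
  simp only [eval_eq_sum_range' h1, mul_sum]
  rw [sum_comm]
  refine sum_eq_zero fun l hl => ?_
  have : ∑ i, c i * (P.coeff l * u i ^ l) = P.coeff l * ∑ i, c i * u i ^ l := by
    rw [mul_sum]
    exact sum_congr rfl fun i _ => by ring
  rw [this, h l (mem_range.1 hl), mul_zero]

theorem moment {J : ℕ} (u : Fin J → ℕ) (c : Fin J → ℤ) (hu : Function.Injective u) (hc : c ≠ 0)
    (h0 : ∑ i, c i = 0) : ∃ j, j + 2 ≤ J ∧ (∀ l, l < j + 1 → ∑ i, c i * (u i : ℤ) ^ l = 0) ∧
      ((j + 1).factorial : ℤ) ≤ |∑ i, c i * (u i : ℤ) ^ (j + 1)| := by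
  classical
  have hex : ∃ l, l < J ∧ ∑ i, c i * (u i : ℤ) ^ l ≠ 0 := by
    by_contra hn
    refine hc (Matrix.eq_zero_of_forall_pow_sum_mul_pow_eq_zero (f := fun i => (u i : ℤ))
      (fun i j hij => hu (Nat.cast_injective (R := ℤ) hij)) fun l => ?_)
    by_contra h1
    exact hn ⟨l, l.2, h1⟩
  obtain ⟨h1, h2⟩ := Nat.find_spec hex
  have h3 : ∀ l, l < Nat.find hex → ∑ i, c i * (u i : ℤ) ^ l = 0 := fun l hl => by
    by_contra h4
    exact Nat.find_min hex hl ⟨by omega, h4⟩
  generalize Nat.find hex = k at h1 h2 h3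
  cases k with
  | zero => exact absurd (by simpa using h0) h2
  | succ j =>
    refine ⟨j, by omega, h3, Int.le_of_dvd (abs_pos.2 h2) ((dvd_abs _ _).2 ?_)⟩
    have hm := monic_descPochhammer ℤ (j + 1)
    have hd : (X ^ (j + 1) - descPochhammer ℤ (j + 1) : ℤ[X]).degree < (j + 1 : ℕ) := by
      have h4 : (X ^ (j + 1) : ℤ[X]).degree = (descPochhammer ℤ (j + 1)).degree := by
        rw [degree_X_pow, degree_eq_natDegree hm.ne_zero, descPochhammer_natDegree]
      have := degree_sub_lt_left h4 (monic_X_pow (j + 1)).ne_zero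
        ((monic_X_pow (j + 1)).leadingCoeff.trans hm.leadingCoeff.symm)
      rwa [degree_X_pow] at this
    have h5 := poly_zero (fun i => (u i : ℤ)) c h3 _ hd
    simp only [eval_sub, eval_pow, eval_X, mul_sub, sum_sub_distrib, sub_eq_zero,
      descPochhammer_eval_eq_descFactorial] at h5
    rw [h5]
    refine dvd_sum fun i _ => Dvd.dvd.mul_left ?_ _
    exact_mod_cast Nat.factorial_dvd_descFactorial _ _

theorem box {ι : Type} {J A B : ℕ} (S : Finset ι) (e : Fin J → ι → ℤ)
    (he : ∀ i, ∀ l ∈ S, |e i l| ≤ B) (h : (2 * (J * (A * B)) + 1) ^ S.card < (A + 1) ^ J) :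
    ∃ c : Fin J → ℤ, c ≠ 0 ∧ (∀ i, |c i| ≤ A) ∧ ∀ l ∈ S, ∑ i, c i * e i l = 0 := by
  classical
  have h1 : (Fintype.piFinset fun _ : S =>
      Icc (-((J * (A * B) : ℕ) : ℤ)) ((J * (A * B) : ℕ) : ℤ)).card <
      (Fintype.piFinset fun _ : Fin J => Icc (0 : ℤ) A).card := by
    have h2 : ∀ m : ℕ, (Icc (-(m : ℤ)) m).card = 2 * m + 1 := fun m => by
      rw [Int.card_Icc]; omega
    have h3 : (Icc (0 : ℤ) A).card = A + 1 := by rw [Int.card_Icc]; omega
    simpa only [Fintype.card_piFinset, h2, h3, prod_const, card_univ, Fintype.card_coe,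
      Fintype.card_fin] using h
  obtain ⟨v, hv, w, hw, hne, hvw⟩ := exists_ne_map_eq_of_card_lt_of_maps_to h1
    (f := fun v (l : S) => ∑ i, v i * e i l) (fun v hv => by
      refine mem_coe.2 (Fintype.mem_piFinset.2 fun l => mem_Icc.2 (abs_le.1 ?_))
      refine (abs_sum_le_sum_abs _ _).trans ((sum_le_card_nsmul _ _ ((A : ℤ) * B)
        fun i _ => ?_).trans (by simp))
      have h2 := mem_Icc.1 (Fintype.mem_piFinset.1 (mem_coe.1 hv) i)
      rw [abs_mul, abs_of_nonneg h2.1]
      exact mul_le_mul h2.2 (he i l l.2) (abs_nonneg _) (by positivity))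
  refine ⟨v - w, sub_ne_zero.2 hne, fun i => ?_, fun l hl => ?_⟩
  · have h2 := mem_Icc.1 (Fintype.mem_piFinset.1 hv i)
    have h3 := mem_Icc.1 (Fintype.mem_piFinset.1 hw i)
    rw [Pi.sub_apply, abs_le]
    constructor <;> linarith
  · have h2 := congrFun hvw ⟨l, hl⟩
    simp only [Pi.sub_apply, sub_mul, sum_sub_distrib]
    exact sub_eq_zero.2 h2

end Pool.Agent.MP_47b17d_nt.H84
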